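import Pool.Agent.Helper91.CK.Lower
import Pool.Agent.Helper91.CK.Ring

set_option autoImplicit false

namespace Pool.Agent.Results.MP_bb98d0_co.LargeDegree

open Finset Pool.Agent.Helper91.CK

open Classical in
/-- `e(G)`: the number of edges -/
noncomputable def numEdges {V : Type} [Fintype V] (G : SimpleGraph V) : ℕ :=
  G.edgeFinset.card

open Classical in
/-- `f(G)`: the largest number of edges between a vertex set and its complement -/
noncomputable def maxCut {V : Type} [Fintype V] (G : SimpleGraph V) : ℕ :=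
  Finset.univ.sup (fun S : Finset V => (G.interedges S Sᶜ).card)

open Classical in
/-- `k`-regular, no `K_{k+1}`, at least one edge -/
def InClass (k : ℕ) {V : Type} [Fintype V] (G : SimpleGraph V) : Prop :=
  G.IsRegularOfDegree k ∧ G.CliqueFree (k + 1) ∧ 0 < numEdges G

/-- all values `f(G) / e(G)` over the class -/
def ratios (k : ℕ) : Set ℝ :=
  {r | ∃ (V : Type) (_ : Fintype V) (G : SimpleGraph V),
    InClass k G ∧ r = (maxCut G : ℝ) / (numEdges G : ℝ)}

/-- the constant `c_k` -/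
noncomputable def c (k : ℕ) : ℝ := sInf (ratios k)

/-- the claimed value of `c_k` -/
noncomputable def val (k : ℕ) : ℝ :=
  if Even k then 1 / 2 + (3 * (k : ℝ) + 8) / (6 * k * (k + 1))
  else 1 / 2 + (3 * (k : ℝ) + 11) / (6 * k * (k + 1))

section
variable {V : Type} [Fintype V]

open Classical in
lemma maxCut_ge (G : SimpleGraph V) (S : Finset V) :
    (G.interedges S Sᶜ).card ≤ maxCut G := by
  unfold maxCut
  exact Finset.le_sup (f := fun S : Finset V => (G.interedges S Sᶜ).card) (Finset.mem_univ S)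

open Classical in
lemma maxCut_eq (G : SimpleGraph V) :
    ∃ S : Finset V, maxCut G = (G.interedges S Sᶜ).card := by
  obtain ⟨S, _, hS⟩ := Finset.exists_mem_eq_sup (univ : Finset (Finset V)) ⟨∅, Finset.mem_univ _⟩
    (fun S : Finset V => (G.interedges S Sᶜ).card)
  exact ⟨S, hS⟩

lemma cut_formula [DecidableEq V] (G : SimpleGraph V) [DecidableRel G.Adj] (S : Finset V) :
    4 * ((G.interedges S Sᶜ).card : ℤ) = ∑ x, ∑ y, (ad G x y : ℤ) +
      F (fun x y => (ad G x y : ℤ)) univ (sg S) := by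
  have h1 : ((G.interedges S Sᶜ).card : ℤ) = ∑ x ∈ S, ∑ y ∈ Sᶜ, (ad G x y : ℤ) := by
    unfold SimpleGraph.interedges Rel.interedges
    rw [Finset.card_filter, Finset.sum_product]
    unfold ad
    push_cast
    rfl
  have h2 : ∑ x ∈ Sᶜ, ∑ y ∈ S, (ad G x y : ℤ) = ∑ x ∈ S, ∑ y ∈ Sᶜ, (ad G x y : ℤ) := by
    rw [Finset.sum_comm]
    apply Finset.sum_congr rfl
    intro x _
    apply Finset.sum_congr rfl
    intro y _
    rw [ad_symm]
  have hS1 : ∀ x ∈ S, sg S x = 1 := by
    intro x hx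
    simp [sg, hx]
  have hS2 : ∀ x ∈ Sᶜ, sg S x = -1 := by
    intro x hx
    rw [Finset.mem_compl] at hx
    simp [sg, hx]
  unfold F
  rw [← sub_eq_add_neg, ← Finset.sum_sub_distrib]
  simp_rw [← Finset.sum_sub_distrib]
  rw [← Finset.sum_add_sum_compl S]
  simp_rw [← Finset.sum_add_sum_compl S (fun y => (ad G _ y : ℤ) - (ad G _ y : ℤ) * sg S _ * sg S y)]
  have e1 : ∀ x ∈ S, ∑ y ∈ S, ((ad G x y : ℤ) - (ad G x y : ℤ) * sg S x * sg S y) +
      ∑ y ∈ Sᶜ, ((ad G x y : ℤ) - (ad G x y : ℤ) * sg S x * sg S y) =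
      2 * ∑ y ∈ Sᶜ, (ad G x y : ℤ) := by
    intro x hx
    have f1 : ∑ y ∈ S, ((ad G x y : ℤ) - (ad G x y : ℤ) * sg S x * sg S y) = 0 := by
      apply Finset.sum_eq_zero
      intro y hy
      rw [hS1 x hx, hS1 y hy]; ring
    rw [f1, zero_add, Finset.mul_sum]
    apply Finset.sum_congr rfl
    intro y hy
    rw [hS1 x hx, hS2 y hy]; ring
  have e2 : ∀ x ∈ Sᶜ, ∑ y ∈ S, ((ad G x y : ℤ) - (ad G x y : ℤ) * sg S x * sg S y) +
      ∑ y ∈ Sᶜ, ((ad G x y : ℤ) - (ad G x y : ℤ) * sg S x * sg S y) =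
      2 * ∑ y ∈ S, (ad G x y : ℤ) := by
    intro x hx
    have f1 : ∑ y ∈ Sᶜ, ((ad G x y : ℤ) - (ad G x y : ℤ) * sg S x * sg S y) = 0 := by
      apply Finset.sum_eq_zero
      intro y hy
      rw [hS2 x hx, hS2 y hy]; ring
    rw [f1, add_zero, Finset.mul_sum]
    apply Finset.sum_congr rfl
    intro y hy
    rw [hS2 x hx, hS1 y hy]; ring
  rw [Finset.sum_congr rfl e1, Finset.sum_congr rfl e2, ← Finset.mul_sum, ← Finset.mul_sum,
    h2, h1]
  ring

lemma ad_inst (G : SimpleGraph V) (i1 i2 : DecidableRel G.Adj) (x y : V) :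
    @ad V G i1 x y = @ad V G i2 x y := by
  unfold ad
  by_cases h : G.Adj x y <;> simp [h]

open Classical in
lemma upper_cl (G : SimpleGraph V) (B : ℤ)
    (hB : ∀ σ : V → ℤ, Sg σ → F (fun x y => (ad G x y : ℤ)) univ σ ≤ B) :
    4 * (maxCut G : ℤ) ≤ ∑ x, ∑ y, (ad G x y : ℤ) + B := by
  obtain ⟨S, hS⟩ := maxCut_eq G
  rw [hS, cut_formula G S]
  have := hB (sg S) (sg_Sg S)
  linarith

lemma upper_of (G : SimpleGraph V) [i : DecidableRel G.Adj] (B : ℤ)
    (hB : ∀ σ : V → ℤ, Sg σ → F (fun x y => (ad G x y : ℤ)) univ σ ≤ B) :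
    4 * (maxCut G : ℤ) ≤ ∑ x, ∑ y, (ad G x y : ℤ) + B := by
  have h : ∀ x y, @ad V G i x y = @ad V G (fun a b => Classical.propDecidable _) x y :=
    ad_inst G _ _
  simp_rw [h] at hB ⊢
  exact upper_cl G B hB

open Classical in
lemma pos_of_reg {k : ℕ} (hk : 0 < k) [Nonempty V] (G : SimpleGraph V)
    (h : G.IsRegularOfDegree k) : 0 < numEdges G := by
  unfold numEdges
  have h1 := G.sum_degrees_eq_twice_card_edges
  rw [Finset.sum_congr rfl (fun v _ => h v)] at h1
  rw [Finset.sum_const, Finset.card_univ, smul_eq_mul] at h1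
  have h2 : 0 < Fintype.card V * k := Nat.mul_pos Fintype.card_pos hk
  omega

end

lemma reg_ad {k : ℕ} {V : Type} [Fintype V] [DecidableEq V] (G : SimpleGraph V)
    [DecidableRel G.Adj] (h : InClass k G) (v : V) : ∑ y, ad G v y = k := by
  have h1 := h.1 v
  rw [← h1, ← SimpleGraph.card_neighborFinset_eq_degree]
  unfold ad
  rw [← Finset.card_filter]
  congr 1
  ext y
  simp

lemma edges_ad {k : ℕ} {V : Type} [Fintype V] (G : SimpleGraph V)
    (h : InClass k G) : 2 * numEdges G = Fintype.card V * k := by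
  classical
  unfold numEdges
  rw [← G.sum_degrees_eq_twice_card_edges]
  have : ∀ v, G.degree v = k := by
    intro v
    have := h.1 v
    convert this
  rw [Finset.sum_congr rfl (fun v _ => this v)]
  simp

lemma val_eq (k : ℕ) (hk : 0 < k) : val k =
    1 / 2 + (6 * ((((k + 1) / 2 : ℕ) : ℤ) : ℝ) + 8) / (6 * k * (k + 1)) := by
  unfold val
  rcases Nat.even_or_odd' k with ⟨e, he | he⟩
  · have h1 : Even k := ⟨e, by omega⟩
    rw [if_pos h1]
    have h2 : (k + 1) / 2 = e := by omega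
    rw [h2, he]
    push_cast
    ring
  · have h1 : ¬ Even k := by
      rw [Nat.not_even_iff_odd]
      exact ⟨e, he⟩
    rw [if_neg h1]
    have h2 : (k + 1) / 2 = e + 1 := by omega
    rw [h2, he]
    push_cast
    ring

lemma lower_ratio {k : ℕ} (hk : 1000 ≤ k) {r : ℝ} (hr : r ∈ ratios k) : val k ≤ r := by
  classical
  obtain ⟨V, hV, G, hG, rfl⟩ := hr
  obtain ⟨σ, hσ, hF⟩ := lower hk (reg_ad G hG) hG.2.1
  set S : Finset V := univ.filter (fun v => σ v = 1) with hS
  have hσS : sg S = σ := by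
    funext v
    unfold sg
    rcases hσ v with h | h
    · rw [if_pos (by simp [hS, h]), h]
    · rw [if_neg (by simp [hS, h]), h]
  have h1 := cut_formula G S
  rw [hσS] at h1
  have h2 : ∑ x, ∑ y, (ad G x y : ℤ) = (Fintype.card V : ℤ) * k := by
    have : ∀ x, ∑ y, (ad G x y : ℤ) = k := by
      intro x
      exact_mod_cast reg_ad G hG x
    simp_rw [this]
    simp
  rw [h2] at h1
  have h3 := maxCut_ge G S
  have h4 := edges_ad G hG
  have h5 : 0 < numEdges G := hG.2.2
  set m : ℕ := numEdges G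
  set M : ℕ := maxCut G
  set n : ℕ := Fintype.card V
  set I : ℕ := (G.interedges S Sᶜ).card
  rw [val_eq k (by omega)]
  have hkr : (1000 : ℝ) ≤ k := by exact_mod_cast hk
  have hm : (0 : ℝ) < m := by exact_mod_cast h5
  have hMr : (I : ℝ) ≤ M := by exact_mod_cast h3
  have h4r : 2 * (m : ℝ) = n * k := by exact_mod_cast h4
  set q : ℤ := (((k + 1) / 2 : ℕ) : ℤ)
  have h6 : (6 * q + 8) * (n : ℤ) ≤ 3 * ((k : ℤ) + 1) * (4 * (I : ℤ) - n * k) := by
    rw [h1]
    linarith
  have h6r : (6 * (q : ℝ) + 8) * n ≤ 3 * ((k : ℝ) + 1) * (4 * I - n * k) := by exact_mod_cast h6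
  rw [le_div_iff₀ hm]
  have h7 : (1 / 2 + (6 * (q : ℝ) + 8) / (6 * k * (k + 1))) * m =
      (3 * (k + 1) * (n * k) + (6 * (q : ℝ) + 8) * n) / (12 * (k + 1)) := by
    have hm2 : (m : ℝ) = n * k / 2 := by linarith
    rw [hm2]
    field_simp
    ring
  rw [h7, div_le_iff₀ (by positivity)]
  have h8 : 3 * ((k : ℝ) + 1) * (4 * I) ≤ 3 * ((k : ℝ) + 1) * (4 * M) := by
    apply mul_le_mul_of_nonneg_left _ (by positivity)
    linarith
  linarith

lemma ring_class {k : ℕ} (hk : 3 ≤ k) : InClass k (ring k) := by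
  unfold InClass
  have hdeg : ∀ v, @SimpleGraph.degree _ (ring k) v (@SimpleGraph.neighborSetFintype _ (ring k) _
      (fun a b => Classical.propDecidable _) v) = k := by
    intro v
    have := ring_deg hk v
    unfold ad at this
    rw [← Finset.card_filter] at this
    rw [← SimpleGraph.card_neighborFinset_eq_degree]
    refine Eq.trans ?_ this
    congr 1
    ext y
    simp
  exact ⟨hdeg, ring_cliqueFree hk, pos_of_reg (by omega) (ring k) hdeg⟩

lemma ring_ratio {k : ℕ} (hk : 3 ≤ k) :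
    (maxCut (ring k) : ℝ) / (numEdges (ring k) : ℝ) ≤ val k := by
  have h1 := upper_of (ring k) _ (fun σ hσ => ring_upper hk σ hσ)
  have hcls := ring_class hk
  have h2 : ∑ x, ∑ y, (ad (ring k) x y : ℤ) = (3 * ((k : ℤ) + 1)) * k := by
    have : ∀ x, ∑ y, (ad (ring k) x y : ℤ) = k := by
      intro x
      exact_mod_cast ring_deg hk x
    simp_rw [this]
    simp
  rw [h2] at h1
  have h4 := edges_ad (ring k) hcls
  have hc : Fintype.card (Fin 3 × Fin (k + 1)) = 3 * (k + 1) := by simp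
  rw [hc] at h4
  have h5 : 0 < numEdges (ring k) := hcls.2.2
  set m : ℕ := numEdges (ring k)
  set M : ℕ := maxCut (ring k)
  rw [val_eq k (by omega)]
  have hkr : (3 : ℝ) ≤ k := by exact_mod_cast hk
  have hm : (0 : ℝ) < m := by exact_mod_cast h5
  set q : ℤ := (((k + 1) / 2 : ℕ) : ℤ)
  have h6 : 4 * (M : ℤ) ≤ 3 * ((k : ℤ) + 1) * k + 6 * q + 8 := by linarith
  have h6r : 4 * (M : ℝ) ≤ 3 * ((k : ℝ) + 1) * k + 6 * q + 8 := by exact_mod_cast h6
  have h4r : 2 * (m : ℝ) = 3 * (k + 1) * k := by exact_mod_cast h4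
  rw [div_le_iff₀ hm]
  have h7 : (1 / 2 + (6 * (q : ℝ) + 8) / (6 * k * (k + 1))) * m =
      (3 * (k + 1) * k + 6 * q + 8) / 4 := by
    have hm2 : (m : ℝ) = 3 * (k + 1) * k / 2 := by linarith
    rw [hm2]
    field_simp
    ring
  rw [h7]
  linarith

/-- The exact value of `c_k` for all `k ≥ 1000`, and the upper bound for all `k ≥ 3`. -/
theorem result :
    (∀ k : ℕ, 3 ≤ k → c k ≤ val k) ∧
    (∀ k : ℕ, 1000 ≤ k → IsLeast (ratios k) (val k) ∧ c k = val k) := by
  have hbdd : ∀ k, BddBelow (ratios k) := by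
    intro k
    refine ⟨0, ?_⟩
    rintro r ⟨V, hV, G, hG, rfl⟩
    positivity
  have hmem : ∀ k, 3 ≤ k → (maxCut (ring k) : ℝ) / (numEdges (ring k) : ℝ) ∈ ratios k :=
    fun k hk => ⟨_, _, ring k, ring_class hk, rfl⟩
  constructor
  · intro k hk
    exact (csInf_le (hbdd k) (hmem k hk)).trans (ring_ratio hk)
  · intro k hk
    have h3 : 3 ≤ k := by omega
    have h1 : IsLeast (ratios k) (val k) := by
      refine ⟨?_, fun r hr => lower_ratio hk hr⟩
      have h2 : (maxCut (ring k) : ℝ) / (numEdges (ring k) : ℝ) = val k :=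
        le_antisymm (ring_ratio h3) (lower_ratio hk (hmem k h3))
      rw [← h2]
      exact hmem k h3
    exact ⟨h1, h1.csInf_eq⟩

end Pool.Agent.Results.MP_bb98d0_co.LargeDegree
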